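import Mathlib
import Pool.Agent.K1H76.OM.Stm

set_option autoImplicit false

/-!
# Pieces F3 and F2 of the project OM
-/

namespace Pool.Agent.K1H16.OM

open Finset Filter Topology MeasureTheory Pool.Agent.K1H76.OM

/-- complex version of a real arithmetic function -/
noncomputable def cf (f : ArithmeticFunction ℝ) : ArithmeticFunction ℂ :=
  ⟨fun n => (f n : ℂ), by simp⟩

theorem cf_apply (f : ArithmeticFunction ℝ) (n : ℕ) : cf f n = (f n : ℂ) := rfl

theorem cf_mul (f g : ArithmeticFunction ℝ) : cf (f * g) = cf f * cf g := by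
  ext n
  rw [cf_apply, ArithmeticFunction.mul_apply, ArithmeticFunction.mul_apply]
  push_cast
  rfl

theorem sum_bdd (f : ArithmeticFunction ℝ) (hf : ∀ n, |f n| ≤ 1) {s : ℂ} (hs : 1 < s.re) :
    LSeriesSummable (fun n => (cf f) n) s := by
  refine LSeriesSummable_of_bounded_of_one_lt_re (m := 1) (fun n _ => ?_) hs
  rw [cf_apply, Complex.norm_real]
  exact hf n

theorem mo_bdd (n : ℕ) : |mo n| ≤ 1 := by
  change |if Odd n then ((ArithmeticFunction.moebius n : ℤ) : ℝ) else 0| ≤ 1
  split_ifs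
  · have := ArithmeticFunction.abs_moebius_le_one (n := n)
    exact_mod_cast this
  · simp

theorem zo_bdd (n : ℕ) : |zo n| ≤ 1 := by
  change |if Odd n then (1 : ℝ) else 0| ≤ 1
  split_ifs <;> simp

theorem ho_sum (hS : S_HS) {s : ℂ} (hs : 9 / 10 ≤ s.re) :
    LSeriesSummable (fun n => (cf ho) n) s := by
  unfold LSeriesSummable
  refine Summable.of_norm_bounded hS (fun n => ?_)
  rcases eq_or_ne n 0 with rfl | hn
  · simp
  · rw [LSeries.norm_term_eq, if_neg hn, cf_apply, Complex.norm_real, Real.norm_eq_abs]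
    have hn1 : (1 : ℝ) ≤ n := by exact_mod_cast Nat.one_le_iff_ne_zero.2 hn
    rw [Real.rpow_neg (by positivity), div_eq_mul_inv]
    refine mul_le_mul_of_nonneg_left ?_ (abs_nonneg _)
    apply inv_anti₀ (by positivity)
    exact Real.rpow_le_rpow_of_exponent_le hn1 (by linarith)

theorem zo_L {s : ℂ} (hs : 1 < s.re) :
    LSeries (fun n => (cf zo) n) s = (1 - 2 ^ (-s)) * riemannZeta s := by
  have h1 : s ≠ 1 := by
    rintro rfl
    simp at hs
  have h2 := DirichletCharacter.LFunctionTrivChar_eq_mul_riemannZeta (N := 2) h1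
  have h3 : DirichletCharacter.LFunctionTrivChar 2 s =
      LSeries (fun n => (1 : DirichletCharacter ℂ 2) n) s :=
    DirichletCharacter.LFunction_eq_LSeries _ hs
  rw [Nat.Prime.primeFactors Nat.prime_two, prod_singleton, h3] at h2
  rw [← Nat.cast_two, ← h2]
  refine LSeries_congr (fun {n} _ => ?_) s
  rw [cf_apply]
  change (((if Odd n then (1 : ℝ) else 0) : ℝ) : ℂ) = _
  by_cases hn : Odd n
  · rw [if_pos hn]
    have : IsUnit ((n : ℕ) : ZMod 2) := by
      rw [ZMod.isUnit_iff_coprime]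
      exact Nat.coprime_two_right.2 hn
    rw [MulChar.one_apply this]
    simp
  · rw [if_neg hn]
    have : ¬ IsUnit ((n : ℕ) : ZMod 2) := by
      rw [ZMod.isUnit_iff_coprime]
      exact fun h => hn (Nat.coprime_two_right.1 h)
    rw [MulChar.map_nonunit _ this]
    simp

theorem t_F3 (hX : S_HX) (hS : S_HS) : S_F3 := by
  intro s hs
  have hm := sum_bdd mo mo_bdd hs
  have hz := sum_bdd zo zo_bdd hs
  have hh := ho_sum hS (s := s) (by linarith)
  have ha : LSeriesSummable (fun n => (cf ao) n) s := by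
    rw [hX.1, cf_mul, cf_mul]
    exact ArithmeticFunction.LSeriesSummable_mul
      (ArithmeticFunction.LSeriesSummable_mul hm hm) hh
  refine ⟨ha, ?_⟩
  have h1 : LSeries (fun n => (cf ho) n) s =
      LSeries (fun n => (cf ao) n) s * LSeries (fun n => (cf zo) n) s *
        LSeries (fun n => (cf zo) n) s := by
    have e : cf ho = cf ao * cf zo * cf zo := by
      rw [← cf_mul, ← cf_mul]
      rfl
    rw [e, ArithmeticFunction.LSeries_mul' (ArithmeticFunction.LSeriesSummable_mul ha hz) hz,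
      ArithmeticFunction.LSeries_mul' ha hz]
  change LSeries (fun n => (cf ao) n) s * _ = LSeries (fun n => (cf ho) n) s
  rw [h1, zo_L hs]
  ring

theorem T_eq (t : ℝ) : ∑ k ∈ Icc 1 ⌊t⌋₊, (ao k : ℂ) = (T t : ℂ) := by
  unfold T
  rw [sum_filter]
  push_cast
  refine sum_congr rfl fun k _ => ?_
  change (((if Odd k then (-2 : ℝ) ^ (ArithmeticFunction.cardFactors k) else 0) : ℝ) : ℂ) = _
  split_ifs <;> push_cast <;> rfl

theorem T_eq' (t : ℝ) : ∑ k ∈ Icc 1 ⌊t⌋₊, ao k = T t := by
  have := T_eq t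
  exact_mod_cast this

theorem T_meas : Measurable T := by
  have h : T = (fun n : ℕ => ∑ k ∈ Icc 1 n, ao k) ∘ (fun t : ℝ => ⌊t⌋₊) := by
    funext t
    exact (T_eq' t).symm
  rw [h]
  exact (measurable_from_nat).comp Nat.measurable_floor

/-- the dominating function -/
theorem dom_int (C : ℝ) :
    IntegrableOn (fun t : ℝ => C * (1 / (t * (1 + Real.log t) ^ 2))) (Set.Ioi 1) := by
  refine Integrable.const_mul ?_ C
  have h1 : ∀ t : ℝ, 1 ≤ t → 0 < 1 + Real.log t := fun t ht => by
    have := Real.log_nonneg ht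
    linarith
  refine integrableOn_Ioi_deriv_of_nonneg' (g := fun t : ℝ => -(1 + Real.log t)⁻¹) (l := 0) ?_ ?_ ?_
  · intro t ht
    have ht1 : (1 : ℝ) ≤ t := ht
    have ht0 : t ≠ 0 := by linarith
    have h2 : HasDerivAt (fun t : ℝ => 1 + Real.log t) (t⁻¹) t :=
      (Real.hasDerivAt_log ht0).const_add 1
    have h3 := (h2.inv (h1 t ht1).ne').neg
    have h4 : -(-t⁻¹ / (1 + Real.log t) ^ 2) = 1 / (t * (1 + Real.log t) ^ 2) := by
      have := (h1 t ht1).ne'
      field_simp
    rw [h4] at h3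
    exact h3
  · intro t ht
    have ht1 : (1 : ℝ) < t := ht
    have := h1 t ht1.le
    positivity
  · have h4 : Tendsto (fun t : ℝ => 1 + Real.log t) atTop atTop :=
      tendsto_atTop_add_const_left _ _ Real.tendsto_log_atTop
    have h5 := (tendsto_inv_atTop_zero.comp h4).neg
    simpa using h5

theorem t_F2 (hT : Good ao) (h3 : S_F3) : S_F2 := by
  intro k
  obtain ⟨C0, hC0⟩ := hT 0
  obtain ⟨C, hC⟩ := hT 2
  have hre : (sk k).re = 1 := by
    have h9 : sk k = 1 + Complex.I * ((Real.pi * (2 * k + 1) / Real.log 2 : ℝ) : ℂ) := by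
      unfold sk
      push_cast
      rfl
    rw [h9, Complex.add_re, Complex.I_mul_re, Complex.ofReal_im]
    simp
  have hrd : ∀ δ : ℝ, (sk k + δ).re = 1 + δ := fun δ => by
    rw [Complex.add_re, hre, Complex.ofReal_re]
  have hO : (fun n : ℕ => ∑ j ∈ Icc 1 n, (ao j : ℂ)) =O[atTop] fun n => (n : ℝ) ^ (1 : ℝ) := by
    refine Asymptotics.IsBigO.of_bound C0 ?_
    filter_upwards [eventually_ge_atTop 1] with n hn
    have h1 := hC0 n (by exact_mod_cast hn)
    rw [Nat.floor_natCast, pow_zero, div_one] at h1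
    rw [Real.rpow_one, ← Complex.ofReal_sum, Complex.norm_real]
    simpa using h1
  have hint : ∀ δ : ℝ, 0 < δ → LSeries (fun n => (ao n : ℂ)) (sk k + δ) / (sk k + δ) =
      ∫ t in Set.Ioi (1 : ℝ), (T t : ℂ) * (t : ℂ) ^ (-(sk k + δ + 1)) := by
    intro δ hδ
    have hr1 : 1 < (sk k + δ).re := by rw [hrd]; linarith
    have hne : sk k + (δ : ℂ) ≠ 0 := by
      intro h
      rw [h] at hr1
      simp at hr1
      linarith
    rw [LSeries_eq_mul_integral (fun n => (ao n : ℂ)) zero_le_one hr1 (h3 _ hr1).1 hO,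
      mul_div_cancel_left₀ _ hne]
    simp only [T_eq]
  have hev : (fun δ : ℝ => LSeries (fun n => (ao n : ℂ)) (sk k + δ) / (sk k + δ)) =ᶠ[𝓝[>] 0]
      fun δ : ℝ => ∫ t in Set.Ioi (1 : ℝ), (T t : ℂ) * (t : ℂ) ^ (-(sk k + δ + 1)) := by
    filter_upwards [self_mem_nhdsWithin] with δ hδ
    exact hint δ hδ
  refine Tendsto.congr' hev.symm ?_
  refine tendsto_integral_filter_of_dominated_convergence
    (fun t : ℝ => C * (1 / (t * (1 + Real.log t) ^ 2))) ?_ ?_ (dom_int C) ?_
  · refine Eventually.of_forall fun δ => ?_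
    exact ((Complex.measurable_ofReal.comp T_meas).mul
      (Complex.measurable_ofReal.pow_const _)).aestronglyMeasurable
  · filter_upwards [self_mem_nhdsWithin] with δ hδ
    have hδ0 : 0 < δ := hδ
    refine (ae_restrict_iff' measurableSet_Ioi).2 (Eventually.of_forall fun t ht => ?_)
    have ht1 : (1 : ℝ) < t := ht
    have ht0 : 0 < t := by linarith
    have hl : 0 < 1 + Real.log t := by
      have := Real.log_nonneg ht1.le
      linarith
    rw [norm_mul, Complex.norm_real, Complex.norm_cpow_eq_rpow_re_of_pos ht0, Real.norm_eq_abs]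
    have hre2 : (-(sk k + δ + 1)).re = -(2 + δ) := by
      rw [Complex.neg_re, Complex.add_re, hrd, Complex.one_re]
      ring
    rw [hre2]
    have h5 := hC t ht1.le
    rw [T_eq'] at h5
    have h6 : t ^ (-(2 + δ)) ≤ t ^ (-(2 : ℝ)) :=
      Real.rpow_le_rpow_of_exponent_le ht1.le (by linarith)
    have h7 : t ^ (-(2 : ℝ)) = 1 / (t * t) := by
      rw [Real.rpow_neg ht0.le, Real.rpow_two]
      field_simp
    calc |T t| * t ^ (-(2 + δ)) ≤ (C * t / (1 + Real.log t) ^ 2) * t ^ (-(2 : ℝ)) :=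
          mul_le_mul h5 h6 (by positivity) ((abs_nonneg _).trans h5)
      _ = C * (1 / (t * (1 + Real.log t) ^ 2)) := by
          rw [h7]
          field_simp
  · refine (ae_restrict_iff' measurableSet_Ioi).2 (Eventually.of_forall fun t ht => ?_)
    have ht1 : (1 : ℝ) < t := ht
    have ht0 : (t : ℂ) ≠ 0 := by
      have : t ≠ 0 := by linarith
      exact_mod_cast this
    refine Tendsto.const_mul _ ?_
    have hc : Continuous (fun δ : ℝ => (t : ℂ) ^ (-(sk k + δ + 1))) := by
      refine Continuous.const_cpow ?_ (Or.inl ht0)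
      fun_prop
    have h8 := hc.tendsto 0
    simp only [Complex.ofReal_zero, add_zero] at h8
    exact h8.mono_left nhdsWithin_le_nhds

end Pool.Agent.K1H16.OM
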